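import Pool.Agent.W158.NCR.Step

set_option autoImplicit false
set_option linter.unusedSectionVars false

namespace Pool.Agent.W158.NCR

open Module Submodule

variable {K : Type*} [Field K] [Infinite K] {V W : Type*} [AddCommGroup V] [Module K V]
  [AddCommGroup W] [Module K W] [FiniteDimensional K V] [FiniteDimensional K W]

/-- the arithmetic of the induction step -/
theorem arith (a b x y k v n i w u1 u2 p1 p2 s1 s2 q1 q2 : ℤ) (ha : 0 ≤ a) (hab : a ≤ b)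
    (hI : i + k = x + y) (hV : w + k = v + y) (hyn : y ≤ n) (hwi : w ≤ i)
    (h1 : a * (k + s1) + b * n ≤ a * (u1 + n) + b * p1)
    (h2 : a * (v + s2) + b * i ≤ a * (u2 + i) + b * p2)
    (hP : p1 + p2 ≤ w + i) (hq1 : q1 ≤ s1) (hq2 : q2 ≤ s2)
    (c1 : (2 * a) * (u1 + y) + (2 * a + b) * i < (2 * a) * (x + q1) + (2 * a + b) * y)
    (c2 : (2 * a) * (u2 + y) + (2 * a + b) * i < (2 * a) * (x + q2) + (2 * a + b) * y) : False := by
  have e1 : a * q1 ≤ a * s1 := mul_le_mul_of_nonneg_left hq1 ha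
  have e2 : a * q2 ≤ a * s2 := mul_le_mul_of_nonneg_left hq2 ha
  have e3 : b * (p1 + p2) ≤ b * (w + i) := mul_le_mul_of_nonneg_left hP (ha.trans hab)
  have e4 : (b - a) * (w - n) ≤ (b - a) * (i - y) :=
    mul_le_mul_of_nonneg_left (by linarith) (by linarith)
  have e5 : k = x + y - i := by linarith
  have e6 : v = w + k - y := by linarith
  subst e6
  subst e5
  nlinarith

theorem mem_low {𝒜 : Submodule K (V →ₗ[K] W)} {X : Submodule K V} {Y : Submodule K W} {k : ℕ}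
    {C : V →ₗ[K] W} (hC : C ∈ 𝒜) (h : X.map C ≤ Y) :
    C ∈ ({C | C ∈ 𝒜 ∧ rk X Y C ≤ finrank K Y + k} : Set (V →ₗ[K] W)) := by
  refine ⟨hC, ?_⟩
  unfold rk
  rw [sup_eq_right.2 h]
  exact Nat.le_add_right _ _

/-- one step: the two smaller pairs -/
theorem step_one {𝒜 : Submodule K (V →ₗ[K] W)} {X : Submodule K V} {Y : Submodule K W}
    {a b : ℕ} (hab : a ≤ b) {A : V →ₗ[K] W} (hA : A ∈ 𝒜)
    (hmax : ∀ B ∈ 𝒜, rk X Y B ≤ rk X Y A)
    (h1 : Concl 𝒜 (KK X Y A) (NN 𝒜 X Y A) a b) (h2 : Concl 𝒜 (VV 𝒜 X Y A) (II X Y A) a b) :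
    Concl 𝒜 X Y (2 * a) (2 * a + b) := by
  obtain ⟨A1, hA1, U1, hU1, g1⟩ := h1
  obtain ⟨A2, hA2, U2, hU2, g2⟩ := h2
  -- a common map
  obtain ⟨C, hC, hC1, hC2⟩ : ∃ C ∈ 𝒜, rk (KK X Y A) (NN 𝒜 X Y A) A1 ≤
      rk (KK X Y A) (NN 𝒜 X Y A) C ∧ rk (VV 𝒜 X Y A) (II X Y A) A2 ≤
        rk (VV 𝒜 X Y A) (II X Y A) C := by
    have hf := (finite_rk_drop (KK X Y A) (NN 𝒜 X Y A) A1 A2).union
      (finite_rk_drop' (VV 𝒜 X Y A) (II X Y A) A1 A2)
    obtain ⟨t, ht⟩ := hf.exists_notMem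
    simp only [Set.mem_union, Set.mem_setOf_eq, not_or, not_lt] at ht
    exact ⟨A1 + t • A2, 𝒜.add_mem hA1 (𝒜.smul_mem t hA2), ht.1, ht.2⟩
  have hP := dim_P hA hmax hC
  have hI := dim_I (X := X) (Y := Y) (A := A)
  have hV := dim_V hA hmax
  have hyn : finrank K Y ≤ finrank K (NN 𝒜 X Y A) := Submodule.finrank_mono Y_le_NN
  have hwi : finrank K (WW 𝒜 X Y A) ≤ finrank K (II X Y A) :=
    Submodule.finrank_mono (WW_le_II hA hmax)
  have hq1 : finrank K (img 𝒜 U1 ⊔ Y : Submodule K W) ≤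
      finrank K (img 𝒜 U1 ⊔ NN 𝒜 X Y A : Submodule K W) :=
    Submodule.finrank_mono (sup_le_sup_left Y_le_NN _)
  have hq2 : finrank K (img 𝒜 U2 ⊔ Y : Submodule K W) ≤
      finrank K (img 𝒜 U2 ⊔ II X Y A : Submodule K W) :=
    Submodule.finrank_mono (sup_le_sup_left Y_le_II _)
  have hr : rk X Y A = finrank K (II X Y A) := rfl
  by_contra hcon
  have hc1 : ¬ (2 * a * (finrank K X + finrank K (img 𝒜 U1 ⊔ Y : Submodule K W)) +
      (2 * a + b) * finrank K Y ≤ 2 * a * (finrank K U1 + finrank K Y) +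
        (2 * a + b) * rk X Y A) := fun h => hcon ⟨A, hA, U1, hU1.trans KK_le_X, h⟩
  have hc2 : ¬ (2 * a * (finrank K X + finrank K (img 𝒜 U2 ⊔ Y : Submodule K W)) +
      (2 * a + b) * finrank K Y ≤ 2 * a * (finrank K U2 + finrank K Y) +
        (2 * a + b) * rk X Y A) := fun h => hcon ⟨A, hA, U2, hU2.trans VV_le_X, h⟩
  rw [hr] at hc1 hc2
  rw [not_le] at hc1 hc2
  have hP' : rk (KK X Y A) (NN 𝒜 X Y A) A1 + rk (VV 𝒜 X Y A) (II X Y A) A2 ≤
      finrank K (WW 𝒜 X Y A) + finrank K (II X Y A) := by omega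
  refine arith (a : ℤ) b (finrank K X) (finrank K Y) (finrank K (KK X Y A))
    (finrank K (VV 𝒜 X Y A)) (finrank K (NN 𝒜 X Y A)) (finrank K (II X Y A))
    (finrank K (WW 𝒜 X Y A)) (finrank K U1) (finrank K U2)
    (rk (KK X Y A) (NN 𝒜 X Y A) A1) (rk (VV 𝒜 X Y A) (II X Y A) A2)
    (finrank K (img 𝒜 U1 ⊔ NN 𝒜 X Y A : Submodule K W))
    (finrank K (img 𝒜 U2 ⊔ II X Y A : Submodule K W))
    (finrank K (img 𝒜 U1 ⊔ Y : Submodule K W)) (finrank K (img 𝒜 U2 ⊔ Y : Submodule K W))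
    (Int.natCast_nonneg a) (by exact_mod_cast hab) (by exact_mod_cast hI) (by exact_mod_cast hV)
    (by exact_mod_cast hyn) (by exact_mod_cast hwi) (by exact_mod_cast g1) (by exact_mod_cast g2)
    (by exact_mod_cast hP') (by exact_mod_cast hq1) (by exact_mod_cast hq2)
    (by exact_mod_cast hc1) (by exact_mod_cast hc2)

/-- The main induction. -/
theorem main (𝒜 : Submodule K (V →ₗ[K] W)) (j : ℕ) : ∀ (X : Submodule K V) (Y : Submodule K W),
    Hyp 𝒜 X Y (j + 2) (j + 1) → Concl 𝒜 X Y (2 ^ j) (2 ^ (j + 1) - 1) := by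
  induction j with
  | zero =>
    intro X Y h
    exact base h
  | succ j ih =>
    intro X Y h
    obtain ⟨A, hA, hmax, 𝒟, hD, hDm, hspan⟩ := exists_good h
    have h1 : Hyp 𝒜 (KK X Y A) (NN 𝒜 X Y A) (j + 2) (j + 1) := by
      refine ⟨𝒟, hD, hDm, hspan.trans (sup_le (sup_le le_sup_left ?_) ?_)⟩
      · rw [span_singleton_le_iff_mem]
        refine Submodule.mem_sup_right (subset_span (mem_low hA ?_))
        refine le_trans ?_ Y_le_NN
        rintro _ ⟨x, hx, rfl⟩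
        exact hx.2
      · refine (span_mono ?_).trans le_sup_right
        rintro C ⟨hC, hC2⟩
        exact ⟨hC, rank1 hA hmax hC hC2⟩
    have h2 : Hyp 𝒜 (VV 𝒜 X Y A) (II X Y A) (j + 2) (j + 1) := by
      refine ⟨𝒟, hD, hDm, hspan.trans (sup_le (sup_le le_sup_left ?_) ?_)⟩
      · rw [span_singleton_le_iff_mem]
        refine Submodule.mem_sup_right (subset_span (mem_low hA ?_))
        exact (Submodule.map_mono VV_le_X).trans le_sup_left
      · refine (span_mono ?_).trans le_sup_right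
        rintro C ⟨hC, hC2⟩
        exact ⟨hC, rank2 hA hmax hC hC2⟩
    have hab : 2 ^ j ≤ 2 ^ (j + 1) - 1 := by
      have := Nat.one_le_two_pow (n := j)
      rw [pow_succ]; omega
    have h3 := step_one hab hA hmax (ih _ _ h1) (ih _ _ h2)
    have e1 : 2 * 2 ^ j = 2 ^ (j + 1) := by rw [pow_succ]; ring
    have e2 : 2 * 2 ^ j + (2 ^ (j + 1) - 1) = 2 ^ (j + 1 + 1) - 1 := by
      have := Nat.one_le_two_pow (n := j + 1)
      rw [e1, pow_succ 2 (j + 1)]; omega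
    rw [e2, e1] at h3
    exact h3

end Pool.Agent.W158.NCR
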