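import Mathlib

set_option autoImplicit false

namespace Pool.Agent.W158.NCR

open Module Submodule

section defs

variable {K : Type*} [Field K] {V W : Type*} [AddCommGroup V] [Module K V] [AddCommGroup W]
  [Module K W]

/-- dimension of `f X + Y` -/
noncomputable def rk (X : Submodule K V) (Y : Submodule K W) (f : V →ₗ[K] W) : ℕ :=
  finrank K (X.map f ⊔ Y : Submodule K W)

/-- the span of all `f u`, `f ∈ 𝒜`, `u ∈ U` -/
def img (𝒜 : Submodule K (V →ₗ[K] W)) (U : Submodule K V) : Submodule K W :=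
  Submodule.map₂ LinearMap.id 𝒜 U

theorem apply_mem_img {𝒜 : Submodule K (V →ₗ[K] W)} {U : Submodule K V} {f : V →ₗ[K] W} {u : V}
    (hf : f ∈ 𝒜) (hu : u ∈ U) : f u ∈ img 𝒜 U :=
  Submodule.apply_mem_map₂ _ hf hu

theorem img_le {𝒜 : Submodule K (V →ₗ[K] W)} {U : Submodule K V} {T : Submodule K W} :
    img 𝒜 U ≤ T ↔ ∀ f ∈ 𝒜, ∀ u ∈ U, f u ∈ T :=
  Submodule.map₂_le

theorem img_mono {𝒜 ℬ : Submodule K (V →ₗ[K] W)} {U U' : Submodule K V} (h : 𝒜 ≤ ℬ)
    (h' : U ≤ U') : img 𝒜 U ≤ img ℬ U' :=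
  Submodule.map₂_le_map₂ h h'

theorem map_le_img {𝒜 : Submodule K (V →ₗ[K] W)} {U : Submodule K V} {f : V →ₗ[K] W}
    (hf : f ∈ 𝒜) : U.map f ≤ img 𝒜 U := by
  rintro _ ⟨u, hu, rfl⟩
  exact apply_mem_img hf hu

theorem img_sup_left (𝒜 ℬ : Submodule K (V →ₗ[K] W)) (U : Submodule K V) :
    img (𝒜 ⊔ ℬ) U = img 𝒜 U ⊔ img ℬ U :=
  Submodule.map₂_sup_left _ _ _ _

theorem img_span_singleton (f : V →ₗ[K] W) (U : Submodule K V) :
    img (span K {f}) U = U.map f := by
  apply le_antisymm
  · rw [img_le]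
    intro g hg u hu
    obtain ⟨c, rfl⟩ := mem_span_singleton.1 hg
    exact Submodule.smul_mem _ c ⟨u, hu, rfl⟩
  · exact map_le_img (mem_span_singleton_self f)

end defs

section dims

variable {K : Type*} [Field K] {V W : Type*} [AddCommGroup V] [Module K V] [AddCommGroup W]
  [Module K W] [FiniteDimensional K V] [FiniteDimensional K W]

theorem finrank_map_add_ker (S : Submodule K V) (f : V →ₗ[K] W) :
    finrank K (S.map f) + finrank K (S ⊓ LinearMap.ker f : Submodule K V) = finrank K S := by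
  have h := LinearMap.finrank_range_add_finrank_ker (f.domRestrict S)
  rw [LinearMap.range_domRestrict] at h
  have h2 : finrank K (LinearMap.ker (f.domRestrict S)) =
      finrank K (S ⊓ LinearMap.ker f : Submodule K V) := by
    have h3 : (LinearMap.ker (f.domRestrict S)).map S.subtype = S ⊓ LinearMap.ker f := by
      ext x
      simp only [Submodule.mem_map, LinearMap.mem_ker, LinearMap.domRestrict_apply,
        Submodule.subtype_apply, Subtype.exists, Submodule.mem_inf]
      constructor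
      · rintro ⟨a, ha, h1, rfl⟩
        exact ⟨ha, h1⟩
      · rintro ⟨ha, h1⟩
        exact ⟨x, ha, h1, rfl⟩
    rw [← h3]
    exact (LinearEquiv.finrank_eq (Submodule.equivMapOfInjective _ S.injective_subtype _))
  omega

/-- relative rank-nullity -/
theorem rank_nullity (X : Submodule K V) (Y : Submodule K W) (f : V →ₗ[K] W) :
    rk X Y f + finrank K (X ⊓ Y.comap f : Submodule K V) = finrank K X + finrank K Y := by
  have h1 := Submodule.finrank_sup_add_finrank_inf_eq (X.map f) Y
  have h2 := finrank_map_add_ker X f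
  have h3 := finrank_map_add_ker (X ⊓ Y.comap f) f
  have h4 : (X ⊓ Y.comap f).map f = X.map f ⊓ Y := by
    ext w
    simp only [Submodule.mem_map, Submodule.mem_inf, Submodule.mem_comap]
    constructor
    · rintro ⟨x, ⟨hx, hy⟩, rfl⟩
      exact ⟨⟨x, hx, rfl⟩, hy⟩
    · rintro ⟨⟨x, hx, rfl⟩, hy⟩
      exact ⟨x, ⟨hx, hy⟩, rfl⟩
  have h5 : (X ⊓ Y.comap f) ⊓ LinearMap.ker f = X ⊓ LinearMap.ker f := by
    ext x
    simp only [Submodule.mem_inf, Submodule.mem_comap, LinearMap.mem_ker]
    constructor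
    · rintro ⟨⟨h1, h2⟩, h3⟩
      exact ⟨h1, h3⟩
    · rintro ⟨h1, h3⟩
      exact ⟨⟨h1, by rw [h3]; exact Y.zero_mem⟩, h3⟩
  rw [h4, h5] at h3
  unfold rk
  omega

theorem rk_mono {X X' : Submodule K V} {Y Y' : Submodule K W} (hX : X ≤ X') (hY : Y ≤ Y')
    (f : V →ₗ[K] W) : rk X Y f ≤ rk X' Y' f :=
  Submodule.finrank_mono (sup_le_sup (Submodule.map_mono hX) hY)

theorem le_rk (X : Submodule K V) (Y : Submodule K W) (f : V →ₗ[K] W) :
    finrank K Y ≤ rk X Y f :=
  Submodule.finrank_mono le_sup_right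

theorem rk_smul (X : Submodule K V) (Y : Submodule K W) (f : V →ₗ[K] W) {c : K} (hc : c ≠ 0) :
    rk X Y (c • f) = rk X Y f := by
  unfold rk
  rw [Submodule.map_smul f X c hc]

/-- enlarging `Y` -/
theorem sup_mono_aux (S : Submodule K W) {Y N : Submodule K W} (h : Y ≤ N) :
    finrank K (S ⊔ N : Submodule K W) + finrank K Y ≤
      finrank K (S ⊔ Y : Submodule K W) + finrank K N := by
  have h1 := Submodule.finrank_sup_add_finrank_inf_eq (S ⊔ Y) N
  have h2 : S ⊔ Y ⊔ N = S ⊔ N := by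
    rw [sup_assoc, sup_eq_right.2 h]
  have h3 : finrank K Y ≤ finrank K ((S ⊔ Y) ⊓ N : Submodule K W) :=
    Submodule.finrank_mono (le_inf le_sup_right h)
  rw [h2] at h1
  omega

theorem finrank_lt_of_mem {S T : Submodule K W} (h : S ≤ T) {z : W} (hz : z ∈ T) (hz' : z ∉ S) :
    finrank K S + 1 ≤ finrank K T :=
  Submodule.finrank_lt_finrank_of_lt (lt_of_le_of_ne h fun he => hz' (he ▸ hz))

theorem exists_max (𝒜 : Submodule K (V →ₗ[K] W)) (X : Submodule K V) (Y : Submodule K W) :
    ∃ A ∈ 𝒜, ∀ B ∈ 𝒜, rk X Y B ≤ rk X Y A := by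
  have hb : BddAbove (Set.image (rk X Y) (𝒜 : Set (V →ₗ[K] W))) :=
    ⟨finrank K W, by rintro _ ⟨B, -, rfl⟩; exact Submodule.finrank_le _⟩
  have hn : (Set.image (rk X Y) (𝒜 : Set (V →ₗ[K] W))).Nonempty := ⟨_, 0, 𝒜.zero_mem, rfl⟩
  obtain ⟨A, hA, hA'⟩ := Nat.sSup_mem hn hb
  exact ⟨A, hA, fun B hB => hA' ▸ le_csSup hb ⟨B, hB, rfl⟩⟩

end dims

section generic

variable {K : Type*} [Field K]

theorem finite_not_unit {E : Type*} [AddCommGroup E] [Module K E] [FiniteDimensional K E]
    (C : Module.End K E) : {t : K | ¬ IsUnit (1 + t • C)}.Finite := by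
  have h : (spectrum K C).Finite := Module.End.finite_spectrum C
  have h2 : ((fun t : K => -t⁻¹) ⁻¹' spectrum K C).Finite :=
    h.preimage (fun a _ b _ hab => inv_injective (neg_injective hab))
  refine h2.subset ?_
  intro t ht
  have ht' : ¬ IsUnit (1 + t • C) := ht
  simp only [Set.mem_preimage, spectrum.mem_iff]
  intro hu
  apply ht'
  by_cases h0 : t = 0
  · rw [h0, zero_smul, add_zero]; exact isUnit_one
  · have h3 : (1 + t • C : Module.End K E) = (-t) • (algebraMap K (Module.End K E) (-t⁻¹) - C) := by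
      rw [smul_sub, Algebra.algebraMap_eq_smul_one, smul_smul]
      have : -t * -t⁻¹ = 1 := by field_simp
      rw [this, one_smul, neg_smul, sub_neg_eq_add]
    rw [h3]
    have h4 : (-t) ≠ 0 := neg_ne_zero.2 h0
    have := hu.smul (Units.mk0 (-t) h4)
    exact this

variable {V W : Type*} [AddCommGroup V] [Module K V] [AddCommGroup W]
  [Module K W] [FiniteDimensional K V] [FiniteDimensional K W]

theorem finite_range_drop (f g : V →ₗ[K] W) :
    {t : K | finrank K (LinearMap.range (f + t • g)) < finrank K (LinearMap.range f)}.Finite := by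
  obtain ⟨P, hP⟩ := f.rangeRestrict.exists_rightInverse_of_surjective
    (LinearMap.range_rangeRestrict f)
  obtain ⟨N, hN⟩ := (LinearMap.range f).subtype.exists_leftInverse_of_injective
    (Submodule.ker_subtype _)
  have hfP : ∀ e, f (P e) = e.1 := by
    intro e
    have := LinearMap.congr_fun hP e
    exact congrArg Subtype.val this
  have hNs : ∀ e : LinearMap.range f, N e.1 = e := by
    intro e
    exact LinearMap.congr_fun hN e
  refine (finite_not_unit (N ∘ₗ g ∘ₗ P)).subset ?_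
  intro t ht hu
  have ht' : finrank K (LinearMap.range (f + t • g)) < finrank K (LinearMap.range f) := ht
  have h1 : (N ∘ₗ (f + t • g) ∘ₗ P) = (1 + t • (N ∘ₗ g ∘ₗ P) : Module.End K _) := by
    ext e
    simp only [LinearMap.comp_apply, LinearMap.add_apply, LinearMap.smul_apply, map_add, map_smul,
      hfP, hNs, Module.End.one_apply]
  have h2 : Function.Surjective (N ∘ₗ (f + t • g) ∘ₗ P) := by
    rw [h1]
    exact ((Module.End.isUnit_iff _).1 hu).2
  have h3 : (LinearMap.range (f + t • g)).map N = ⊤ := by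
    rw [eq_top_iff]
    intro e _
    obtain ⟨x, hx⟩ := h2 e
    exact ⟨(f + t • g) (P x), ⟨P x, rfl⟩, hx⟩
  have h4 := Submodule.finrank_map_le N (LinearMap.range (f + t • g))
  rw [h3, finrank_top] at h4
  omega

/-- the map `(x, y) ↦ f x + y` -/
def rel (X : Submodule K V) (Y : Submodule K W) (f : V →ₗ[K] W) : (X × Y) →ₗ[K] W :=
  (f ∘ₗ X.subtype).coprod Y.subtype

omit [FiniteDimensional K V] [FiniteDimensional K W] in
theorem range_rel (X : Submodule K V) (Y : Submodule K W) (f : V →ₗ[K] W) :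
    LinearMap.range (rel X Y f) = X.map f ⊔ Y := by
  rw [rel, LinearMap.range_coprod, LinearMap.range_comp, Submodule.range_subtype,
    Submodule.range_subtype]

theorem finite_rk_drop (X : Submodule K V) (Y : Submodule K W) (f g : V →ₗ[K] W) :
    {t : K | rk X Y (f + t • g) < rk X Y f}.Finite := by
  refine (finite_range_drop (rel X Y f) ((g ∘ₗ X.subtype).coprod 0)).subset ?_
  intro t ht
  have ht' : rk X Y (f + t • g) < rk X Y f := ht
  have h1 : rel X Y f + t • ((g ∘ₗ X.subtype).coprod 0) = rel X Y (f + t • g) := by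
    ext x <;> simp [rel]
  change finrank K (LinearMap.range (rel X Y f + t • ((g ∘ₗ X.subtype).coprod 0))) <
    finrank K (LinearMap.range (rel X Y f))
  rw [h1, range_rel, range_rel]
  exact ht'

theorem finite_rk_drop' (X : Submodule K V) (Y : Submodule K W) (f g : V →ₗ[K] W) :
    {t : K | rk X Y (f + t • g) < rk X Y g}.Finite := by
  have h := finite_rk_drop X Y g f
  have h2 : ((fun t : K => t⁻¹) ⁻¹' {t : K | rk X Y (g + t • f) < rk X Y g}).Finite :=
    h.preimage (fun a _ b _ hab => inv_injective hab)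
  refine (h2.union (Set.finite_singleton 0)).subset ?_
  intro t ht
  have ht' : rk X Y (f + t • g) < rk X Y g := ht
  by_cases h0 : t = 0
  · exact Or.inr h0
  · left
    change rk X Y (g + t⁻¹ • f) < rk X Y g
    have h3 : f + t • g = t • (g + t⁻¹ • f) := by
      rw [smul_add, smul_smul, mul_inv_cancel₀ h0, one_smul, add_comm]
    rw [h3, rk_smul X Y _ h0] at ht'
    exact ht'

/-- If `A` has maximal rank in `𝒜` and `z` is in the image of `A + t B` for all `t ≠ 0` then `z` is
in the image of `A`. -/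
theorem mem_of_forall [Infinite K] {𝒜 : Submodule K (V →ₗ[K] W)} {X : Submodule K V}
    {Y : Submodule K W} {A B : V →ₗ[K] W} (hA : A ∈ 𝒜) (hmax : ∀ B ∈ 𝒜, rk X Y B ≤ rk X Y A)
    (hB : B ∈ 𝒜) {z : W} (hz : ∀ t : K, t ≠ 0 → z ∈ X.map (A + t • B) ⊔ Y) :
    z ∈ X.map A ⊔ Y := by
  by_contra hcon
  have h1 := (finite_rk_drop X (Y ⊔ span K {z}) A B).union (Set.finite_singleton 0)
  obtain ⟨t, ht⟩ := h1.exists_notMem
  simp only [Set.mem_union, Set.mem_singleton_iff, not_or] at ht
  obtain ⟨ht1, ht0⟩ := ht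
  have ht2 : ¬ rk X (Y ⊔ span K {z}) (A + t • B) < rk X (Y ⊔ span K {z}) A := ht1
  have h2 : rk X (Y ⊔ span K {z}) (A + t • B) = rk X Y (A + t • B) := by
    unfold rk
    have : X.map (A + t • B) ⊔ (Y ⊔ span K {z}) = X.map (A + t • B) ⊔ Y := by
      rw [← sup_assoc, sup_eq_left, span_singleton_le_iff_mem]
      exact hz t ht0
    rw [this]
  have h3 : rk X Y A + 1 ≤ rk X (Y ⊔ span K {z}) A := by
    refine finrank_lt_of_mem (sup_le_sup_left le_sup_left _) (z := z) ?_ hcon
    exact (le_sup_right.trans le_sup_right : span K {z} ≤ _) (mem_span_singleton_self z)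
  have h4 := hmax (A + t • B) (𝒜.add_mem hA (𝒜.smul_mem t hB))
  omega

end generic

end Pool.Agent.W158.NCR
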