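import Pool.Agent.W158.NCR.Basic

set_option autoImplicit false
set_option linter.unusedSectionVars false

namespace Pool.Agent.W158.NCR

open Module Submodule

variable {K : Type*} [Field K] [Infinite K] {V W : Type*} [AddCommGroup V] [Module K V]
  [AddCommGroup W] [Module K W] [FiniteDimensional K V] [FiniteDimensional K W]

omit [Infinite K] [FiniteDimensional K W] in
theorem finrank_single_le (w : W) : finrank K (span K {w}) ≤ 1 := by
  by_cases h : w = 0
  · rw [h, span_zero_singleton, finrank_bot]; exact Nat.zero_le _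
  · exact (finrank_span_singleton h).le

/-- the Edmonds-Rado property for the maps `X → W / Y` in `𝒜` -/
def ER (𝒜 : Submodule K (V →ₗ[K] W)) (X : Submodule K V) (Y : Submodule K W) : Prop :=
  ∃ A ∈ 𝒜, ∃ U ≤ X, finrank K X + finrank K (img 𝒜 U ⊔ Y : Submodule K W) ≤
    finrank K U + rk X Y A

/-- the operator of the Wong sequence -/
def wong (A B : V →ₗ[K] W) (X : Submodule K V) (Y : Submodule K W) :
    Submodule K V →o Submodule K V where
  toFun U := X ⊓ (U.map B ⊔ Y).comap A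
  monotone' _ _ h := inf_le_inf_left _ (Submodule.comap_mono (sup_le_sup_right
    (Submodule.map_mono h) _))

theorem pencil_aux {𝒜 : Submodule K (V →ₗ[K] W)} {A B : V →ₗ[K] W} (hA : A ∈ 𝒜) (hB : B ∈ 𝒜)
    (hAB : 𝒜 ≤ span K {A} ⊔ span K {B}) (X : Submodule K V) (Y : Submodule K W)
    (hmax : ∀ C ∈ 𝒜, rk X Y C ≤ rk X Y A) : ER 𝒜 X Y := by
  set Φ := wong A B X Y
  set U := OrderHom.lfp Φ with hU
  have hfix : X ⊓ (U.map B ⊔ Y).comap A = U := OrderHom.map_lfp Φ
  have hUX : U ≤ X := by rw [← hfix]; exact inf_le_left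
  -- the chain argument
  have key : ∀ t : K, t ≠ 0 → U ≤ (X.map (A + t • B) ⊔ Y).comap B := by
    intro t ht
    apply OrderHom.lfp_le
    rintro x ⟨hxX, hx⟩
    have hx' : A x ∈ ((X.map (A + t • B) ⊔ Y).comap B).map B ⊔ Y := hx
    obtain ⟨a, ⟨u, hu, rfl⟩, y, hy, hay⟩ := Submodule.mem_sup.1 hx'
    have hu' : B u ∈ X.map (A + t • B) ⊔ Y := hu
    change B x ∈ X.map (A + t • B) ⊔ Y
    have h1 : (A + t • B) x ∈ X.map (A + t • B) ⊔ Y :=
      Submodule.mem_sup_left ⟨x, hxX, rfl⟩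
    have h2 : t • B x = (A + t • B) x - (B u + y) := by
      rw [hay]; simp
    have h3 : t • B x ∈ X.map (A + t • B) ⊔ Y := by
      rw [h2]
      exact Submodule.sub_mem _ h1 (Submodule.add_mem _ hu' (Submodule.mem_sup_right hy))
    have h4 := Submodule.smul_mem _ t⁻¹ h3
    rwa [smul_smul, inv_mul_cancel₀ ht, one_smul] at h4
  have hBU : U.map B ⊔ Y ≤ X.map A ⊔ Y := by
    refine sup_le ?_ le_sup_right
    rintro _ ⟨u, hu, rfl⟩
    exact mem_of_forall hA hmax hB (fun t ht => key t ht hu)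
  -- A U + Y = B U + Y
  have hAU : U.map A ⊔ Y = U.map B ⊔ Y := by
    apply le_antisymm
    · refine sup_le ?_ le_sup_right
      rintro _ ⟨u, hu, rfl⟩
      have : u ∈ X ⊓ (U.map B ⊔ Y).comap A := by rw [hfix]; exact hu
      exact this.2
    · intro z hz
      obtain ⟨a, ⟨x, hx, rfl⟩, y, hy, rfl⟩ := Submodule.mem_sup.1 (hBU hz)
      refine Submodule.add_mem _ (Submodule.mem_sup_left ⟨x, ?_, rfl⟩)
        (Submodule.mem_sup_right hy)
      have h1 : A x ∈ U.map B ⊔ Y := by
        have := Submodule.sub_mem _ hz (Submodule.mem_sup_right hy : y ∈ U.map B ⊔ Y)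
        rwa [add_sub_cancel_right] at this
      have h2 : x ∈ X ⊓ (U.map B ⊔ Y).comap A := ⟨hx, h1⟩
      rw [hfix] at h2
      exact h2
  have himg : img 𝒜 U ⊔ Y = U.map A ⊔ Y := by
    apply le_antisymm
    · refine sup_le ?_ le_sup_right
      refine (img_mono hAB le_rfl).trans ?_
      rw [img_sup_left, img_span_singleton, img_span_singleton]
      refine sup_le le_sup_left ?_
      rw [hAU]
      exact le_sup_left
    · exact sup_le_sup_right (map_le_img hA) _
  refine ⟨A, hA, U, hUX, ?_⟩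
  rw [himg]
  have h1 := rank_nullity X Y A
  have h2 := rank_nullity U Y A
  have h3 : U ⊓ Y.comap A = X ⊓ Y.comap A := by
    apply le_antisymm (inf_le_inf_right _ hUX)
    refine le_inf ?_ inf_le_right
    conv_rhs => rw [← hfix]
    exact inf_le_inf_left _ (Submodule.comap_mono le_sup_right)
  rw [h3] at h2
  have h4 : finrank K (U.map A ⊔ Y : Submodule K W) = rk U Y A := rfl
  omega

/-- spaces of dimension at most two -/
theorem pencil (𝒜 : Submodule K (V →ₗ[K] W)) (h2 : finrank K 𝒜 ≤ 2) (X : Submodule K V)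
    (Y : Submodule K W) : ER 𝒜 X Y := by
  classical
  obtain ⟨A, hA, hmax⟩ := exists_max 𝒜 X Y
  -- we may assume that `A ≠ 0` unless `𝒜 = 0`
  by_cases h0 : 𝒜 = ⊥
  · refine ⟨A, hA, X, le_rfl, ?_⟩
    have : img 𝒜 X = ⊥ := by
      rw [eq_bot_iff, img_le]
      intro f hf u _
      rw [h0] at hf
      rw [(Submodule.mem_bot K).1 hf]
      simp
    rw [this, bot_sup_eq]
    have := le_rk X Y A
    omega
  obtain ⟨A, hA, hmax, hA0⟩ : ∃ A ∈ 𝒜, (∀ C ∈ 𝒜, rk X Y C ≤ rk X Y A) ∧ A ≠ 0 := by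
    by_cases hA0 : A = 0
    · obtain ⟨C, hC, hC0⟩ := Submodule.exists_mem_ne_zero_of_ne_bot h0
      refine ⟨C, hC, fun D hD => (hmax D hD).trans ?_, hC0⟩
      rw [hA0]
      unfold rk
      rw [Submodule.map_zero, bot_sup_eq]
      exact le_rk X Y C
    · exact ⟨A, hA, hmax, hA0⟩
  -- choose B
  obtain ⟨B, hB, hAB⟩ : ∃ B ∈ 𝒜, 𝒜 ≤ span K {A} ⊔ span K {B} := by
    by_cases hle : 𝒜 ≤ span K {A}
    · exact ⟨A, hA, hle.trans le_sup_left⟩
    · obtain ⟨B, hB, hB'⟩ := SetLike.not_le_iff_exists.1 hle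
      refine ⟨B, hB, ?_⟩
      have hsub : span K {A} ⊔ span K {B} ≤ 𝒜 :=
        sup_le ((span_singleton_le_iff_mem _ _).2 hA) ((span_singleton_le_iff_mem _ _).2 hB)
      have h3 : finrank K (span K {A}) + 1 ≤
          finrank K (span K {A} ⊔ span K {B} : Submodule K (V →ₗ[K] W)) :=
        finrank_lt_of_mem le_sup_left (Submodule.mem_sup_right (mem_span_singleton_self B)) hB'
      rw [finrank_span_singleton hA0] at h3
      exact (Submodule.eq_of_le_of_finrank_le hsub (by omega)).symm.le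
  exact pencil_aux hA hB hAB X Y hmax

/-- adding a map of rank at most one -/
theorem er_insert {𝒜' : Submodule K (V →ₗ[K] W)} {C : V →ₗ[K] W} {X : Submodule K V}
    {Y : Submodule K W} (hC : rk X Y C ≤ finrank K Y + 1) (h1 : ER 𝒜' X Y)
    (h2 : ER 𝒜' (X ⊓ Y.comap C) (X.map C ⊔ Y)) : ER (𝒜' ⊔ span K {C}) X Y := by
  classical
  set 𝒜 := 𝒜' ⊔ span K {C} with h𝒜
  have hle : 𝒜' ≤ 𝒜 := le_sup_left
  have hC𝒜 : C ∈ 𝒜 := Submodule.mem_sup_right (mem_span_singleton_self C)
  set X'' := X ⊓ Y.comap C with hX''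
  set Y'' := X.map C ⊔ Y with hY''
  have hX''X : X'' ≤ X := inf_le_left
  have hYY'' : Y ≤ Y'' := le_sup_right
  have himgC : ∀ U : Submodule K V, img 𝒜 U = img 𝒜' U ⊔ U.map C := fun U => by
    rw [h𝒜, img_sup_left, img_span_singleton]
  by_cases hcase : X.map C ≤ Y
  · -- `C` is zero
    obtain ⟨A, hA, U, hU, hUA⟩ := h1
    refine ⟨A, hle hA, U, hU, ?_⟩
    have : img 𝒜 U ⊔ Y = img 𝒜' U ⊔ Y := by
      rw [himgC, sup_assoc, sup_eq_right.2 ((Submodule.map_mono hU).trans hcase)]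
    rw [this]
    exact hUA
  obtain ⟨w, ⟨x₀, hx₀, hw⟩, hwY⟩ := SetLike.not_le_iff_exists.1 hcase
  have hYr : finrank K Y'' = finrank K Y + 1 := by
    have : finrank K Y + 1 ≤ finrank K Y'' :=
      finrank_lt_of_mem hYY'' (z := w) (Submodule.mem_sup_left ⟨x₀, hx₀, hw⟩) hwY
    have h3 : finrank K Y'' = rk X Y C := rfl
    omega
  have hXr : finrank K X = finrank K X'' + 1 := by
    have := rank_nullity X Y C
    have h3 : finrank K Y'' = rk X Y C := rfl
    have h4 : finrank K (X ⊓ Y.comap C : Submodule K V) = finrank K X'' := rfl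
    omega
  have hY''eq : Y'' = Y ⊔ span K {w} := by
    refine (Submodule.eq_of_le_of_finrank_le (sup_le hYY'' ?_) ?_).symm
    · rw [span_singleton_le_iff_mem]
      exact Submodule.mem_sup_left ⟨x₀, hx₀, hw⟩
    · rw [hYr]
      exact finrank_lt_of_mem le_sup_left
        (Submodule.mem_sup_right (mem_span_singleton_self w)) hwY
  obtain ⟨M, hM, hmax⟩ := exists_max 𝒜 X Y
  obtain ⟨A', hA', U', hU', hg'⟩ := h1
  obtain ⟨A'', hA'', U'', hU'', hg''⟩ := h2
  have hr1 : rk X Y A' ≤ rk X Y M := hmax _ (hle hA')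
  -- the second bound
  have hr2 : rk X'' Y'' A'' ≤ rk X Y M := by
    set Z := X''.map A'' ⊔ Y with hZ
    have hZle : ∀ t : K, Z ≤ X.map (A'' + t • C) ⊔ Y := by
      intro t
      refine sup_le ?_ le_sup_right
      rintro _ ⟨x, hx, rfl⟩
      have h3 : A'' x = (A'' + t • C) x - t • C x := by simp
      rw [h3]
      exact Submodule.sub_mem _ (Submodule.mem_sup_left ⟨x, hX''X hx, rfl⟩)
        (Submodule.mem_sup_right (Submodule.smul_mem _ t hx.2))
    have hZeq : rk X'' Y'' A'' = finrank K (Z ⊔ span K {w} : Submodule K W) := by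
      unfold rk
      rw [hY''eq, hZ, sup_assoc]
    have hle1 : finrank K (Z ⊔ span K {w} : Submodule K W) ≤ finrank K Z + 1 := by
      have h3 := Submodule.finrank_sup_add_finrank_inf_eq Z (span K {w})
      have h4 : finrank K (span K {w}) ≤ 1 := finrank_single_le w
      omega
    by_cases hwZ : w ∈ Z
    · rw [hZeq]
      have h3 : Z ⊔ span K {w} = Z := sup_eq_left.2 ((span_singleton_le_iff_mem _ _).2 hwZ)
      rw [h3]
      exact (Submodule.finrank_mono (hZle 0)).trans
        (hmax _ (𝒜.add_mem (hle hA'') (𝒜.smul_mem 0 hC𝒜)))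
    · obtain ⟨t, ht⟩ : ∃ t : K, A'' x₀ + t • w ∉ Z := by
        by_contra hcon
        push Not at hcon
        have h3 := Submodule.sub_mem _ (hcon 1) (hcon 0)
        apply hwZ
        simpa using h3
      have h3 : finrank K Z + 1 ≤ rk X Y (A'' + t • C) := by
        refine finrank_lt_of_mem (hZle t) (z := A'' x₀ + t • w) ?_ ht
        refine Submodule.mem_sup_left ⟨x₀, hx₀, ?_⟩
        simp [hw]
      have h4 := hmax _ (𝒜.add_mem (hle hA'') (𝒜.smul_mem t hC𝒜))
      omega
  by_cases hcmp : rk X Y A' + 1 ≤ rk X Y M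
  · -- use `U'`
    refine ⟨M, hM, U', hU', ?_⟩
    have h3 : finrank K (img 𝒜 U' ⊔ Y : Submodule K W) ≤
        finrank K (img 𝒜' U' ⊔ Y : Submodule K W) + 1 := by
      have h4 : img 𝒜 U' ⊔ Y ≤ (img 𝒜' U' ⊔ Y) ⊔ span K {w} := by
        rw [himgC]
        refine sup_le (sup_le (le_sup_left.trans le_sup_left) ?_) (le_sup_right.trans le_sup_left)
        have h5 : U'.map C ≤ Y'' := (Submodule.map_mono hU').trans le_sup_left
        rw [hY''eq] at h5
        exact h5.trans (sup_le_sup_right le_sup_right _)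
      have h5 := Submodule.finrank_mono h4
      have h6 := Submodule.finrank_sup_add_finrank_inf_eq (img 𝒜' U' ⊔ Y) (span K {w})
      have h7 : finrank K (span K {w}) ≤ 1 := finrank_single_le w
      omega
    omega
  · -- submodularity
    have hI : img 𝒜 (U' ⊓ U'') ⊔ Y ≤ (img 𝒜' U' ⊔ Y) ⊓ (img 𝒜' U'' ⊔ Y'') := by
      have h5 : (U' ⊓ U'').map C ≤ Y := by
        rintro _ ⟨x, hx, rfl⟩
        exact (hU'' hx.2).2
      rw [himgC]
      refine le_inf ?_ ?_
      · exact sup_le (sup_le ((img_mono le_rfl inf_le_left).trans le_sup_left)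
          (h5.trans le_sup_right)) le_sup_right
      · exact sup_le (sup_le ((img_mono le_rfl inf_le_right).trans le_sup_left)
          ((h5.trans hYY'').trans le_sup_right)) (hYY''.trans le_sup_right)
    have hS : img 𝒜 (U' ⊔ U'') ⊔ Y ≤ (img 𝒜' U' ⊔ Y) ⊔ (img 𝒜' U'' ⊔ Y'') := by
      have h5 : (U' ⊔ U'').map C ≤ Y'' :=
        (Submodule.map_mono (sup_le hU' (hU''.trans hX''X))).trans le_sup_left
      have h6 : img 𝒜' (U' ⊔ U'') = img 𝒜' U' ⊔ img 𝒜' U'' := Submodule.map₂_sup_right _ _ _ _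
      rw [himgC, h6]
      refine sup_le (sup_le (sup_le ?_ ?_) ?_) ?_
      · exact le_sup_left.trans le_sup_left
      · exact le_sup_left.trans le_sup_right
      · exact h5.trans (le_sup_right.trans le_sup_right)
      · exact le_sup_right.trans le_sup_left
    have h3 := Submodule.finrank_mono hI
    have h4 := Submodule.finrank_mono hS
    have h5 := Submodule.finrank_sup_add_finrank_inf_eq (img 𝒜' U' ⊔ Y) (img 𝒜' U'' ⊔ Y'')
    have h6 := Submodule.finrank_sup_add_finrank_inf_eq U' U''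
    by_cases hfin : finrank K X + finrank K (img 𝒜 (U' ⊓ U'') ⊔ Y : Submodule K W) ≤
        finrank K (U' ⊓ U'' : Submodule K V) + rk X Y M
    · exact ⟨M, hM, U' ⊓ U'', inf_le_left.trans hU', hfin⟩
    · refine ⟨M, hM, U' ⊔ U'', sup_le hU' (hU''.trans hX''X), ?_⟩
      omega

/-- spaces spanned by two maps and maps of rank at most one -/
theorem er_finset (𝒟 : Submodule K (V →ₗ[K] W)) (hD : finrank K 𝒟 ≤ 2)
    (T : Finset (V →ₗ[K] W)) : ∀ (X : Submodule K V) (Y : Submodule K W),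
    (∀ C ∈ T, rk X Y C ≤ finrank K Y + 1) → ER (𝒟 ⊔ span K (T : Set (V →ₗ[K] W))) X Y := by
  classical
  induction T using Finset.induction_on with
  | empty =>
    intro X Y _
    rw [Finset.coe_empty, span_empty, sup_bot_eq]
    exact pencil 𝒟 hD X Y
  | insert C T hCT ih =>
    intro X Y h
    have h1 : 𝒟 ⊔ span K ((insert C T : Finset (V →ₗ[K] W)) : Set (V →ₗ[K] W)) =
        (𝒟 ⊔ span K (T : Set (V →ₗ[K] W))) ⊔ span K {C} := by
      rw [Finset.coe_insert, span_insert, sup_comm (span K {C}), sup_assoc]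
    rw [h1]
    refine er_insert (h C (Finset.mem_insert_self _ _))
      (ih X Y fun D hD => h D (Finset.mem_insert_of_mem hD)) (ih _ _ fun D hD => ?_)
    have h2 := h D (Finset.mem_insert_of_mem hD)
    have h3 : rk (X ⊓ Y.comap C) (X.map C ⊔ Y) D ≤ rk X (X.map C ⊔ Y) D :=
      rk_mono inf_le_left le_rfl D
    have h4 := sup_mono_aux (X.map D) (le_sup_right : Y ≤ X.map C ⊔ Y)
    unfold rk at *
    omega

end Pool.Agent.W158.NCR
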