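import Pool.Agent.W158.NCR.RankOne

set_option autoImplicit false
set_option linter.unusedSectionVars false

namespace Pool.Agent.W158.NCR

open Module Submodule

variable {K : Type*} [Field K] [Infinite K] {V W : Type*} [AddCommGroup V] [Module K V]
  [AddCommGroup W] [Module K W] [FiniteDimensional K V] [FiniteDimensional K W]

/-- `𝒜` is spanned by `m` maps and by maps of rank at most `k` (as maps `X → W / Y`) -/
def Hyp (𝒜 : Submodule K (V →ₗ[K] W)) (X : Submodule K V) (Y : Submodule K W) (m k : ℕ) : Prop :=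
  ∃ 𝒟 ≤ 𝒜, finrank K 𝒟 ≤ m ∧ 𝒜 ≤ 𝒟 ⊔ span K {C | C ∈ 𝒜 ∧ rk X Y C ≤ finrank K Y + k}

/-- `a` times the noncommutative rank is at most `b` times the maximal rank -/
def Concl (𝒜 : Submodule K (V →ₗ[K] W)) (X : Submodule K V) (Y : Submodule K W) (a b : ℕ) : Prop :=
  ∃ A ∈ 𝒜, ∃ U ≤ X, a * (finrank K X + finrank K (img 𝒜 U ⊔ Y : Submodule K W)) +
    b * finrank K Y ≤ a * (finrank K U + finrank K Y) + b * rk X Y A

theorem base {𝒜 : Submodule K (V →ₗ[K] W)} {X : Submodule K V} {Y : Submodule K W}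
    (h : Hyp 𝒜 X Y 2 1) : Concl 𝒜 X Y 1 1 := by
  obtain ⟨𝒟, hD, hD2, hA⟩ := h
  have hfg : (span K {C | C ∈ 𝒜 ∧ rk X Y C ≤ finrank K Y + 1}).FG :=
    IsNoetherian.noetherian _
  obtain ⟨T, hT, hT2⟩ := (Submodule.fg_span_iff_fg_span_finset_subset
    {C | C ∈ 𝒜 ∧ rk X Y C ≤ finrank K Y + 1}).1 hfg
  have h1 : 𝒜 = 𝒟 ⊔ span K (T : Set (V →ₗ[K] W)) := by
    apply le_antisymm
    · rw [← hT2]; exact hA
    · refine sup_le hD (span_le.2 fun C hC => (hT hC).1)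
  have h2 := er_finset 𝒟 hD2 T X Y fun C hC => (hT hC).2
  rw [← h1] at h2
  obtain ⟨A, hA, U, hU, h3⟩ := h2
  exact ⟨A, hA, U, hU, by omega⟩

/-- the exceptional space may be replaced by a smaller one and a map of maximal rank -/
theorem exists_good {𝒜 : Submodule K (V →ₗ[K] W)} {X : Submodule K V} {Y : Submodule K W}
    {m k : ℕ} (h : Hyp 𝒜 X Y (m + 1) k) :
    ∃ A ∈ 𝒜, (∀ B ∈ 𝒜, rk X Y B ≤ rk X Y A) ∧ ∃ 𝒟 ≤ 𝒜, finrank K 𝒟 ≤ m ∧
      𝒜 ≤ (𝒟 ⊔ span K {A}) ⊔ span K {C | C ∈ 𝒜 ∧ rk X Y C ≤ finrank K Y + k} := by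
  obtain ⟨𝒟, hD, hDm, hA𝒜⟩ := h
  obtain ⟨A, hA, hmax⟩ := exists_max 𝒜 X Y
  set 𝒮 := span K {C | C ∈ 𝒜 ∧ rk X Y C ≤ finrank K Y + k} with h𝒮
  have h𝒮A : 𝒮 ≤ 𝒜 := span_le.2 fun C hC => hC.1
  by_cases hDS : 𝒟 ≤ 𝒮
  · refine ⟨A, hA, hmax, ⊥, bot_le, ?_, ?_⟩
    · rw [finrank_bot]; exact Nat.zero_le _
    · exact hA𝒜.trans (sup_le (hDS.trans le_sup_right) le_sup_right)
  · obtain ⟨D, hD1, hD2⟩ := SetLike.not_le_iff_exists.1 hDS
    -- a maximal element outside `𝒮`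
    obtain ⟨A', hA', hmax', hA'S⟩ : ∃ A' ∈ 𝒜, (∀ B ∈ 𝒜, rk X Y B ≤ rk X Y A') ∧ A' ∉ 𝒮 := by
      by_cases hAS : A ∈ 𝒮
      · have hfin := (finite_rk_drop X Y A D).union (Set.finite_singleton (0 : K))
        obtain ⟨t, ht⟩ := hfin.exists_notMem
        simp only [Set.mem_union, Set.mem_singleton_iff, not_or] at ht
        have ht1 : ¬ rk X Y (A + t • D) < rk X Y A := ht.1
        refine ⟨A + t • D, 𝒜.add_mem hA (𝒜.smul_mem t (hD hD1)), fun B hB =>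
          (hmax B hB).trans (not_lt.1 ht1), fun hcon => hD2 ?_⟩
        have h1 := 𝒮.sub_mem hcon hAS
        rw [add_sub_cancel_left] at h1
        have h2 := 𝒮.smul_mem t⁻¹ h1
        rwa [smul_smul, inv_mul_cancel₀ ht.2, one_smul] at h2
      · exact ⟨A, hA, hmax, hAS⟩
    refine ⟨A', hA', hmax', ?_⟩
    -- write `A' = D' + S`
    obtain ⟨D', hD', S, hS, hsum⟩ := Submodule.mem_sup.1 (hA𝒜 hA')
    have hD'0 : D' ∉ 𝒮 := fun hcon => hA'S (hsum ▸ 𝒮.add_mem hcon hS)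
    have hD'ne : D' ≠ 0 := fun h0 => hD'0 (h0 ▸ 𝒮.zero_mem)
    -- a complement of `D'` in `𝒟`
    obtain ⟨ℰ, hℰ⟩ := Submodule.exists_isCompl (span K {D'})
    refine ⟨𝒟 ⊓ ℰ, inf_le_left.trans hD, ?_, ?_⟩
    · have h1 := Submodule.finrank_sup_add_finrank_inf_eq (span K {D'}) (𝒟 ⊓ ℰ)
      have h2 : span K {D'} ⊓ (𝒟 ⊓ ℰ) = ⊥ := by
        rw [eq_bot_iff]
        refine (inf_le_inf_left _ inf_le_right).trans ?_
        exact hℰ.inf_eq_bot.le
      rw [h2, finrank_bot, finrank_span_singleton hD'ne] at h1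
      have h3 : span K {D'} ⊔ (𝒟 ⊓ ℰ) ≤ 𝒟 :=
        sup_le ((span_singleton_le_iff_mem _ _).2 hD') inf_le_left
      have h4 := Submodule.finrank_mono h3
      omega
    · have h1 : 𝒟 ≤ span K {D'} ⊔ (𝒟 ⊓ ℰ) := by
        have h5 : span K {D'} ⊔ (𝒟 ⊓ ℰ) = 𝒟 := by
          rw [inf_comm, ← sup_inf_assoc_of_le ℰ ((span_singleton_le_iff_mem _ _).2 hD'),
            hℰ.sup_eq_top, top_inf_eq]
        exact h5.ge
      refine hA𝒜.trans (sup_le (h1.trans (sup_le ?_ ?_)) le_sup_right)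
      · rw [span_singleton_le_iff_mem]
        have h2 : D' = A' - S := by rw [← hsum]; abel
        rw [h2]
        exact Submodule.sub_mem _ (Submodule.mem_sup_left (Submodule.mem_sup_right
          (mem_span_singleton_self A'))) (Submodule.mem_sup_right hS)
      · exact le_sup_left.trans le_sup_left

section step

variable {𝒜 : Submodule K (V →ₗ[K] W)} {X : Submodule K V} {Y : Submodule K W} {A : V →ₗ[K] W}

/-- the kernel is mapped into the image -/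
theorem f1 (hA : A ∈ 𝒜) (hmax : ∀ B ∈ 𝒜, rk X Y B ≤ rk X Y A) {B : V →ₗ[K] W} (hB : B ∈ 𝒜)
    {x : V} (hx : x ∈ X ⊓ Y.comap A) : B x ∈ X.map A ⊔ Y := by
  refine mem_of_forall hA hmax hB fun t ht => ?_
  have h1 : t • B x = (A + t • B) x - A x := by simp
  have h2 : t • B x ∈ X.map (A + t • B) ⊔ Y := by
    rw [h1]
    exact Submodule.sub_mem _ (Submodule.mem_sup_left ⟨x, hx.1, rfl⟩)
      (Submodule.mem_sup_right hx.2)
  have h3 := Submodule.smul_mem _ t⁻¹ h2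
  rwa [smul_smul, inv_mul_cancel₀ ht, one_smul] at h3

theorem f2 (hA : A ∈ 𝒜) (hmax : ∀ B ∈ 𝒜, rk X Y B ≤ rk X Y A) {B : V →ₗ[K] W} (hB : B ∈ 𝒜)
    {x y : V} (hx : x ∈ X ⊓ Y.comap A) (hy : y ∈ X) (hxy : B x - A y ∈ Y) :
    B y ∈ X.map A ⊔ Y := by
  refine mem_of_forall hA hmax hB fun t ht => ?_
  have h1 : (t * t) • B y = A x + t • (B x - A y) - (A + t • B) (x - t • y) := by
    simp only [LinearMap.add_apply, LinearMap.smul_apply, map_sub, map_smul]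
    module
  have h2 : (t * t) • B y ∈ X.map (A + t • B) ⊔ Y := by
    rw [h1]
    exact Submodule.sub_mem _ (Submodule.mem_sup_right (Submodule.add_mem _ hx.2
      (Submodule.smul_mem _ t hxy))) (Submodule.mem_sup_left ⟨_, Submodule.sub_mem _ hx.1
        (Submodule.smul_mem _ t hy), rfl⟩)
  have h3 := Submodule.smul_mem _ (t * t)⁻¹ h2
  rwa [smul_smul, inv_mul_cancel₀ (mul_ne_zero ht ht), one_smul] at h3

theorem f3 (hA : A ∈ 𝒜) (hmax : ∀ B ∈ 𝒜, rk X Y B ≤ rk X Y A) {C D : V →ₗ[K] W} (hC : C ∈ 𝒜)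
    (hD : D ∈ 𝒜) {x y z : V} (hx : x ∈ X ⊓ Y.comap A) (hy : y ∈ X) (hz : z ∈ X)
    (hxy : C x - A y ∈ Y) (hxz : D x - A z ∈ Y) : C z + D y ∈ X.map A ⊔ Y := by
  have h1 := f2 hA hmax hC hx hy hxy
  have h2 := f2 hA hmax hD hx hz hxz
  have h3 := f2 hA hmax (𝒜.add_mem hC hD) hx (X.add_mem hy hz) (by
    have : (C + D) x - A (y + z) = (C x - A y) + (D x - A z) := by
      simp only [LinearMap.add_apply, map_add]; abel
    rw [this]
    exact Y.add_mem hxy hxz)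
  have h4 : C z + D y = (C + D) (y + z) - C y - D z := by
    simp only [LinearMap.add_apply, map_add]; abel
  rw [h4]
  exact Submodule.sub_mem _ (Submodule.sub_mem _ h3 h1) h2

/-- lifting an element of the image -/
theorem lift {w : W} (hw : w ∈ X.map A ⊔ Y) : ∃ y ∈ X, w - A y ∈ Y := by
  obtain ⟨a, ⟨y, hy, rfl⟩, z, hz, rfl⟩ := Submodule.mem_sup.1 hw
  exact ⟨y, hy, by rwa [add_sub_cancel_left]⟩

variable (𝒜 X Y A)

/-- the kernel -/
def KK : Submodule K V := X ⊓ Y.comap A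

/-- the image -/
def II : Submodule K W := X.map A ⊔ Y

/-- the image of the kernel -/
def WW : Submodule K W := img 𝒜 (KK X Y A) ⊔ Y

def VV : Submodule K V := X ⊓ (WW 𝒜 X Y A).comap A

/-- the vectors mapped into the image of `A` -/
def MM : Submodule K V where
  carrier := {y | y ∈ X ∧ ∀ C ∈ 𝒜, C y ∈ II X Y A}
  add_mem' := fun ha hb => ⟨X.add_mem ha.1 hb.1, fun C hC => by
    rw [map_add]; exact Submodule.add_mem _ (ha.2 C hC) (hb.2 C hC)⟩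
  zero_mem' := ⟨X.zero_mem, fun C _ => by rw [map_zero]; exact Submodule.zero_mem _⟩
  smul_mem' := fun c x hx => ⟨X.smul_mem c hx.1, fun C hC => by
    rw [map_smul]; exact Submodule.smul_mem _ c (hx.2 C hC)⟩

def NN : Submodule K W := ((MM 𝒜 X Y A).map A ⊔ Y) ⊓ WW 𝒜 X Y A

variable {𝒜 X Y A}

theorem KK_le_X : KK X Y A ≤ X := inf_le_left

theorem Y_le_II : Y ≤ II X Y A := le_sup_right

theorem Y_le_WW : Y ≤ WW 𝒜 X Y A := le_sup_right

theorem Y_le_NN : Y ≤ NN 𝒜 X Y A := le_inf le_sup_right Y_le_WW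

theorem NN_le_WW : NN 𝒜 X Y A ≤ WW 𝒜 X Y A := inf_le_right

theorem WW_le_II (hA : A ∈ 𝒜) (hmax : ∀ B ∈ 𝒜, rk X Y B ≤ rk X Y A) :
    WW 𝒜 X Y A ≤ II X Y A := by
  refine sup_le ?_ le_sup_right
  rw [img_le]
  intro f hf u hu
  exact f1 hA hmax hf hu

theorem VV_le_X : VV 𝒜 X Y A ≤ X := inf_le_left

theorem KK_le_VV : KK X Y A ≤ VV 𝒜 X Y A :=
  inf_le_inf_left _ (Submodule.comap_mono Y_le_WW)

theorem dim_I : finrank K (II X Y A) + finrank K (KK X Y A) = finrank K X + finrank K Y :=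
  rank_nullity X Y A

theorem dim_sub {S : Submodule K V} (h1 : KK X Y A ≤ S) (h2 : S ≤ X) :
    finrank K (S.map A ⊔ Y : Submodule K W) + finrank K (KK X Y A) =
      finrank K S + finrank K Y := by
  have h := rank_nullity S Y A
  have h3 : S ⊓ Y.comap A = KK X Y A := by
    apply le_antisymm
    · exact inf_le_inf_right _ h2
    · exact le_inf h1 inf_le_right
  rw [h3] at h
  exact h

theorem VV_map (hA : A ∈ 𝒜) (hmax : ∀ B ∈ 𝒜, rk X Y B ≤ rk X Y A) :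
    (VV 𝒜 X Y A).map A ⊔ Y = WW 𝒜 X Y A := by
  apply le_antisymm
  · refine sup_le ?_ Y_le_WW
    rintro _ ⟨x, hx, rfl⟩
    exact hx.2
  · intro w hw
    obtain ⟨y, hy, hwy⟩ := lift (WW_le_II hA hmax hw)
    have h1 : A y ∈ WW 𝒜 X Y A := by
      have := Submodule.sub_mem _ hw (Y_le_WW hwy)
      rwa [sub_sub_cancel] at this
    have h2 : w = A y + (w - A y) := by abel
    rw [h2]
    exact Submodule.add_mem _ (Submodule.mem_sup_left ⟨y, ⟨hy, h1⟩, rfl⟩)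
      (Submodule.mem_sup_right hwy)

theorem dim_V (hA : A ∈ 𝒜) (hmax : ∀ B ∈ 𝒜, rk X Y B ≤ rk X Y A) :
    finrank K (WW 𝒜 X Y A) + finrank K (KK X Y A) = finrank K (VV 𝒜 X Y A) + finrank K Y := by
  have h := dim_sub (A := A) (KK_le_VV (𝒜 := 𝒜) (X := X) (Y := Y)) VV_le_X
  rw [VV_map hA hmax] at h
  exact h

/-- the ranks of one map on the two sides -/
theorem dim_P (hA : A ∈ 𝒜) (hmax : ∀ B ∈ 𝒜, rk X Y B ≤ rk X Y A) {C : V →ₗ[K] W} (hC : C ∈ 𝒜) :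
    rk (KK X Y A) (NN 𝒜 X Y A) C + rk (VV 𝒜 X Y A) (II X Y A) C ≤
      finrank K (WW 𝒜 X Y A) + finrank K (II X Y A) := by
  set Vc := VV 𝒜 X Y A ⊓ (II X Y A).comap C with hVc
  have h1 := rank_nullity (VV 𝒜 X Y A) (II X Y A) C
  have hKV : KK X Y A ≤ Vc := by
    refine le_inf KK_le_VV ?_
    intro x hx
    exact f1 hA hmax hC hx
  have h2 := dim_sub (A := A) hKV (inf_le_left.trans VV_le_X)
  have h3 : (KK X Y A).map C ⊔ NN 𝒜 X Y A ≤ Vc.map A ⊔ Y := by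
    refine sup_le ?_ ?_
    · rintro _ ⟨x, hx, rfl⟩
      have hCx : C x ∈ WW 𝒜 X Y A := Submodule.mem_sup_left (apply_mem_img hC hx)
      obtain ⟨y, hy, hxy⟩ := lift (f1 hA hmax hC hx)
      have h4 := f2 hA hmax hC hx hy hxy
      have h5 : A y ∈ WW 𝒜 X Y A := by
        have := Submodule.sub_mem _ hCx (Y_le_WW hxy)
        rwa [sub_sub_cancel] at this
      have h6 : C x = A y + (C x - A y) := by abel
      rw [h6]
      exact Submodule.add_mem _ (Submodule.mem_sup_left ⟨y, ⟨⟨hy, h5⟩, h4⟩, rfl⟩)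
        (Submodule.mem_sup_right hxy)
    · rintro z ⟨hz1, hz2⟩
      obtain ⟨a, ⟨y, hy, rfl⟩, u, hu, rfl⟩ := Submodule.mem_sup.1 hz1
      have h5 : A y ∈ WW 𝒜 X Y A := by
        have := Submodule.sub_mem _ hz2 (Y_le_WW hu)
        rwa [add_sub_cancel_right] at this
      exact Submodule.add_mem _ (Submodule.mem_sup_left ⟨y, ⟨⟨hy.1, h5⟩, hy.2 C hC⟩, rfl⟩)
        (Submodule.mem_sup_right hu)
  have h4 := Submodule.finrank_mono h3
  have h5 := dim_V hA hmax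
  have h6 : finrank K ((KK X Y A).map C ⊔ NN 𝒜 X Y A : Submodule K W) =
    rk (KK X Y A) (NN 𝒜 X Y A) C := rfl
  have h7 : finrank K (VV 𝒜 X Y A ⊓ (II X Y A).comap C : Submodule K V) = finrank K Vc := rfl
  omega

/-- the first rank bound -/
theorem rank1 (hA : A ∈ 𝒜) (hmax : ∀ B ∈ 𝒜, rk X Y B ≤ rk X Y A) {C : V →ₗ[K] W} (hC : C ∈ 𝒜)
    {k : ℕ} (hk : rk X Y C ≤ finrank K Y + (k + 1)) :
    rk (KK X Y A) (NN 𝒜 X Y A) C ≤ finrank K (NN 𝒜 X Y A) + k := by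
  by_cases hcase : (KK X Y A).map C ≤ NN 𝒜 X Y A
  · unfold rk
    rw [sup_eq_right.2 hcase]
    omega
  obtain ⟨_, ⟨x, hx, rfl⟩, hxN⟩ := SetLike.not_le_iff_exists.1 hcase
  have hCx : C x ∈ WW 𝒜 X Y A := Submodule.mem_sup_left (apply_mem_img hC hx)
  have hCx2 : C x ∉ (MM 𝒜 X Y A).map A ⊔ Y := fun hcon => hxN ⟨hcon, hCx⟩
  obtain ⟨y, hy, hxy⟩ := lift (f1 hA hmax hC hx)
  have hyM : y ∉ MM 𝒜 X Y A := by
    intro hcon
    apply hCx2
    have h6 : C x = A y + (C x - A y) := by abel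
    rw [h6]
    exact Submodule.add_mem _ (Submodule.mem_sup_left ⟨y, hcon, rfl⟩)
      (Submodule.mem_sup_right hxy)
  obtain ⟨D, hD, hDy⟩ : ∃ D ∈ 𝒜, D y ∉ II X Y A := by
    by_contra hcon
    push Not at hcon
    exact hyM ⟨hy, hcon⟩
  obtain ⟨z, hz, hxz⟩ := lift (f1 hA hmax hD hx)
  have h1 := f3 hA hmax hC hD hx hy hz hxy hxz
  have hCz : C z ∉ II X Y A := by
    intro hcon
    apply hDy
    have := Submodule.sub_mem _ h1 hcon
    rwa [add_sub_cancel_left] at this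
  have hKI : (KK X Y A).map C ⊔ Y ≤ II X Y A := by
    refine sup_le ?_ Y_le_II
    rintro _ ⟨u, hu, rfl⟩
    exact f1 hA hmax hC hu
  have h2 : finrank K ((KK X Y A).map C ⊔ Y : Submodule K W) + 1 ≤ rk X Y C :=
    finrank_lt_of_mem (sup_le_sup_right (Submodule.map_mono KK_le_X) _) (z := C z)
      (Submodule.mem_sup_left ⟨z, hz, rfl⟩) (fun hcon => hCz (hKI hcon))
  have h3 := sup_mono_aux ((KK X Y A).map C) (Y_le_NN (𝒜 := 𝒜) (X := X) (Y := Y) (A := A))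
  unfold rk at *
  omega

theorem apply_mem_II (hA : A ∈ 𝒜) (hmax : ∀ B ∈ 𝒜, rk X Y B ≤ rk X Y A) {B : V →ₗ[K] W}
    (hB : B ∈ 𝒜) {x : V} (hx : x ∈ KK X Y A) : B x ∈ II X Y A :=
  f1 hA hmax hB hx

/-- an element `D x` outside the image of the vectors which `C` maps into the image -/
theorem rank2_aux (hA : A ∈ 𝒜) (hmax : ∀ B ∈ 𝒜, rk X Y B ≤ rk X Y A) {C : V →ₗ[K] W}
    (hC : C ∈ 𝒜) (hcase : ¬ (VV 𝒜 X Y A).map C ≤ II X Y A) :
    ∃ D ∈ 𝒜, ∃ x ∈ KK X Y A, D x ∉ (X ⊓ (II X Y A).comap C).map A ⊔ Y := by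
  obtain ⟨w, hw, hyI⟩ := SetLike.not_le_iff_exists.1 hcase
  obtain ⟨y, hy, hyw⟩ := (Submodule.mem_map).1 hw
  by_contra hcon
  push Not at hcon
  have h1 : WW 𝒜 X Y A ≤ (X ⊓ (II X Y A).comap C).map A ⊔ Y :=
    sup_le (img_le.2 hcon) le_sup_right
  have hyX : y ∈ X := (Submodule.mem_inf.1 hy).1
  have hyW : A y ∈ WW 𝒜 X Y A := Submodule.mem_comap.1 (Submodule.mem_inf.1 hy).2
  obtain ⟨a, ha, u, hu, hsum⟩ := Submodule.mem_sup.1 (h1 hyW)
  obtain ⟨v, hv, hva⟩ := (Submodule.mem_map).1 ha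
  have hvX : v ∈ X := (Submodule.mem_inf.1 hv).1
  have hvI : C v ∈ II X Y A := Submodule.mem_comap.1 (Submodule.mem_inf.1 hv).2
  have h2 : y - v ∈ KK X Y A := by
    refine Submodule.mem_inf.2 ⟨X.sub_mem hyX hvX, ?_⟩
    rw [Submodule.mem_comap, map_sub, ← hsum, hva, add_sub_cancel_left]
    exact hu
  have h3 : C (y - v) ∈ II X Y A := apply_mem_II hA hmax hC h2
  apply hyI
  have h4 : w = C (y - v) + C v := by rw [map_sub, ← hyw]; abel
  rw [h4]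
  exact Submodule.add_mem _ h3 hvI

theorem rank2_aux2 (hA : A ∈ 𝒜) (hmax : ∀ B ∈ 𝒜, rk X Y B ≤ rk X Y A) {C : V →ₗ[K] W}
    (hC : C ∈ 𝒜) (hcase : ¬ (VV 𝒜 X Y A).map C ≤ II X Y A) : ∃ x ∈ KK X Y A, C x ∉ Y := by
  obtain ⟨D, hD, x, hx, hDx⟩ := rank2_aux hA hmax hC hcase
  refine ⟨x, hx, ?_⟩
  obtain ⟨z, hz, hxz⟩ := lift (apply_mem_II hA hmax hD hx)
  have hCz : C z ∉ II X Y A := by
    intro hcon
    apply hDx
    have h6 : D x = A z + (D x - A z) := by abel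
    rw [h6]
    refine Submodule.add_mem _ (Submodule.mem_sup_left (Submodule.mem_map_of_mem ?_))
      (Submodule.mem_sup_right hxz)
    exact Submodule.mem_inf.2 ⟨hz, Submodule.mem_comap.2 hcon⟩
  intro hcon
  have h1 : C z + D 0 ∈ X.map A ⊔ Y :=
    f3 hA hmax hC hD hx X.zero_mem hz (by rwa [map_zero, sub_zero]) hxz
  rw [map_zero, add_zero] at h1
  exact hCz h1

/-- the second rank bound -/
theorem rank2 (hA : A ∈ 𝒜) (hmax : ∀ B ∈ 𝒜, rk X Y B ≤ rk X Y A) {C : V →ₗ[K] W} (hC : C ∈ 𝒜)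
    {k : ℕ} (hk : rk X Y C ≤ finrank K Y + (k + 1)) :
    rk (VV 𝒜 X Y A) (II X Y A) C ≤ finrank K (II X Y A) + k := by
  by_cases hcase : (VV 𝒜 X Y A).map C ≤ II X Y A
  · unfold rk
    rw [sup_eq_right.2 hcase]
    omega
  obtain ⟨x, hx, hCxY⟩ := rank2_aux2 hA hmax hC hcase
  have h1 : finrank K Y + 1 ≤ finrank K ((KK X Y A).map C ⊔ Y : Submodule K W) :=
    finrank_lt_of_mem le_sup_right (z := C x)
      (Submodule.mem_sup_left (Submodule.mem_map_of_mem hx)) hCxY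
  have h2 : rk (VV 𝒜 X Y A) (II X Y A) C ≤ rk X (II X Y A) C := rk_mono VV_le_X le_rfl C
  have h3 := Submodule.finrank_sup_add_finrank_inf_eq (X.map C ⊔ Y) (II X Y A)
  have h4 : X.map C ⊔ Y ⊔ II X Y A = X.map C ⊔ II X Y A := by
    have h7 : Y ≤ II X Y A := Y_le_II
    have h8 : Y ⊔ II X Y A = II X Y A := sup_eq_right.2 h7
    rw [sup_assoc, h8]
  have h5 : (KK X Y A).map C ⊔ Y ≤ (X.map C ⊔ Y) ⊓ II X Y A := by
    refine le_inf (sup_le_sup_right (Submodule.map_mono KK_le_X) _) (sup_le ?_ Y_le_II)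
    rintro _ ⟨u, hu, rfl⟩
    exact apply_mem_II hA hmax hC hu
  have h6 := Submodule.finrank_mono h5
  rw [h4] at h3
  unfold rk at *
  omega

end step

end Pool.Agent.W158.NCR
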